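import Pool.Agent.helper54.UG.Spec

set_option autoImplicit false

namespace Pool.Agent.UG

open Matrix Pool.Agent.H48SL

private def DIM_f {n : ℕ} (𝔞 : Submodule ℚ (MQ n)) (u : Fin n → ℚ) : 𝔞 →ₗ[ℚ] (Fin n → ℚ) where
  toFun X := (X : MQ n) *ᵥ u
  map_add' X Y := by simp [Matrix.add_mulVec]
  map_smul' c X := by simp [Matrix.smul_mulVec]

theorem DIM : DIM_stmt := by
  intro n hn 𝔞 hA hdim u
  by_contra hc
  push Not at hc
  have hinj : Function.Injective (DIM_f 𝔞 u) := by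
    rw [← LinearMap.ker_eq_bot, LinearMap.ker_eq_bot']
    intro X hX
    by_contra hX0
    exact hc X.1 X.2 (fun h => hX0 (Subtype.ext h)) hX
  have h1 : Module.finrank ℚ (LinearMap.range (DIM_f 𝔞 u)) = Module.finrank ℚ 𝔞 :=
    LinearMap.finrank_range_of_inj hinj
  have h2 : LinearMap.range (DIM_f 𝔞 u) = ⊤ := by
    apply Submodule.eq_top_of_finrank_eq
    have h3 := Submodule.finrank_le (LinearMap.range (DIM_f 𝔞 u))
    have h4 : Module.finrank ℚ (Fin n → ℚ) = n := Module.finrank_fin_fun ℚ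
    omega
  have h3 : u ∈ LinearMap.range (DIM_f 𝔞 u) := by
    rw [h2]
    trivial
  obtain ⟨X, hX⟩ := h3
  have hXu : (X : MQ n) *ᵥ u = u := hX
  obtain ⟨k, hk⟩ := hA.nil X.2
  have h4 : ∀ j : ℕ, ((X : MQ n) ^ j) *ᵥ u = u := by
    intro j
    induction j with
    | zero => simp
    | succ j ih => rw [pow_succ, ← mulVec_mulVec, hXu, ih]
  have h5 := h4 k
  rw [hk, zero_mulVec] at h5
  have h6 : ∀ Y : 𝔞, Y = 0 := by
    intro Y
    apply hinj
    show (Y : MQ n) *ᵥ u = ((0 : 𝔞) : MQ n) *ᵥ u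
    rw [← h5]
    simp
  have h7 : Module.finrank ℚ 𝔞 = 0 := by
    have : Subsingleton 𝔞 := ⟨fun a b => by rw [h6 a, h6 b]⟩
    exact Module.finrank_zero_of_subsingleton
  omega

end Pool.Agent.UG
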